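import Mathlib
import Pool.Agent.Q278.SJ4

/-! MP_9d843c_co: the chromatic number of `J±(n,4,0)` is superlinear in `n`. -/

namespace Pool.Agent.Results.MP_9d843c_co.Superlinear

open Finset Filter

/-- `J±(n,k,t)`: the vertices are the vectors of `{-1,0,1}^n` with exactly `k` nonzero entries;
distinct vertices are adjacent iff their scalar product is `t`. -/
def J (n k : ℕ) (t : ℤ) : SimpleGraph {v : Fin n → ℤ //
    (∀ i, v i = -1 ∨ v i = 0 ∨ v i = 1) ∧ (univ.filter fun i => v i ≠ 0).card = k} where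
  Adj u v := u ≠ v ∧ ∑ i, u.1 i * v.1 i = t
  symm := ⟨by
    rintro u v ⟨h1, h2⟩
    refine ⟨h1.symm, ?_⟩
    rw [← h2]
    exact Finset.sum_congr rfl fun i _ => mul_comm _ _⟩
  loopless := ⟨fun u h => h.1 rfl⟩

theorem finite_vert (n k : ℕ) : Finite {v : Fin n → ℤ //
    (∀ i, v i = -1 ∨ v i = 0 ∨ v i = 1) ∧ (univ.filter fun i => v i ≠ 0).card = k} := by
  refine Set.Finite.to_subtype ((Set.finite_Icc (fun _ : Fin n => (-1 : ℤ)) fun _ => 1).subset ?_)
  intro v hv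
  constructor
  · intro i
    rcases hv.1 i with h | h | h <;> rw [h] <;> norm_num
  · intro i
    rcases hv.1 i with h | h | h <;> rw [h] <;> norm_num

theorem main (C : ℕ) : ∃ n0 : ℕ, ∀ n ≥ n0, ¬ (J n 4 0).Colorable (C * n) := by
  obtain ⟨n0, h⟩ := Q278.SJ4.no_linear C
  refine ⟨n0, fun n hn hcol => ?_⟩
  obtain ⟨col⟩ := hcol
  obtain ⟨u, v, huv, h0, hc⟩ := h n hn (fun x => col ⟨x.1, x.2⟩)
  exact col.valid (v := ⟨u.1, u.2⟩) (w := ⟨v.1, v.2⟩)
    ⟨fun he => huv (Subtype.ext (congrArg Subtype.val he)), h0⟩ hc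

/-- For every `C`, `χ(J±(n,4,0)) > C n` for all large `n`; the ratio `χ(J±(n,4,0)) / n` (a ratio of
finite numbers) tends to infinity. -/
theorem result :
    (∀ C : ℕ, ∃ n0 : ℕ, ∀ n ≥ n0, ((C * n : ℕ) : ℕ∞) < (J n 4 0).chromaticNumber) ∧
    (∀ n, (J n 4 0).chromaticNumber ≠ ⊤) ∧
    Tendsto (fun n : ℕ => ((J n 4 0).chromaticNumber.toNat : ℝ) / n) atTop atTop := by
  have h1 : ∀ C : ℕ, ∃ n0 : ℕ, ∀ n ≥ n0, ((C * n : ℕ) : ℕ∞) < (J n 4 0).chromaticNumber := by
    intro C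
    obtain ⟨n0, h⟩ := main C
    refine ⟨n0, fun n hn => ?_⟩
    rw [← not_le, SimpleGraph.chromaticNumber_le_iff_colorable]
    exact h n hn
  have h2 : ∀ n, (J n 4 0).chromaticNumber ≠ ⊤ := by
    intro n
    have := finite_vert n 4
    have := Fintype.ofFinite {v : Fin n → ℤ //
      (∀ i, v i = -1 ∨ v i = 0 ∨ v i = 1) ∧ (univ.filter fun i => v i ≠ 0).card = 4}
    exact SimpleGraph.chromaticNumber_ne_top_iff_exists.2 ⟨_, SimpleGraph.colorable_of_fintype _⟩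
  refine ⟨h1, h2, ?_⟩
  rw [tendsto_atTop]
  intro b
  obtain ⟨C, hC⟩ := exists_nat_ge b
  obtain ⟨n0, h⟩ := h1 C
  filter_upwards [eventually_ge_atTop (max n0 1)] with n hn
  have hn0 := h n ((le_max_left _ _).trans hn)
  have hn1 : 0 < n := (le_max_right _ _).trans hn
  have h3 : C * n < (J n 4 0).chromaticNumber.toNat := by
    have := ENat.natCast_toNat (h2 n)
    rw [← this] at hn0
    exact_mod_cast hn0
  rw [le_div_iff₀ (by exact_mod_cast hn1)]
  have h4 : ((C * n : ℕ) : ℝ) ≤ ((J n 4 0).chromaticNumber.toNat : ℝ) := by exact_mod_cast h3.le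
  refine le_trans ?_ h4
  push_cast
  exact mul_le_mul_of_nonneg_right hC (Nat.cast_nonneg n)

end Pool.Agent.Results.MP_9d843c_co.Superlinear
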